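import Pool.Agent.Lib.EulF.Final

/-!
# Eulerian digraphs with at least 0.34 n^2 arcs contain a directed cycle of length at most three
-/

set_option autoImplicit false

namespace Pool.Agent.Results.MP_76b2fe_co.EulerianThreshold

open Finset

/-- A loopless digraph on `n` vertices with in-degree equal to out-degree at every vertex and more than
`0.3399 n ^ 2` arcs contains a digon or a directed triangle. -/
theorem result {V : Type*} [Fintype V] [DecidableEq V] (E : Finset (V × V))
    (hloop : ∀ v : V, (v, v) ∉ E)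
    (hbal : ∀ v : V, (E.filter (fun e => e.1 = v)).card = (E.filter (fun e => e.2 = v)).card)
    (hE : 3399 * (Fintype.card V) ^ 2 < 10000 * E.card) :
    (∃ u v : V, u ≠ v ∧ (u, v) ∈ E ∧ (v, u) ∈ E) ∨
    (∃ u v w : V, u ≠ v ∧ v ≠ w ∧ u ≠ w ∧ (u, v) ∈ E ∧ (v, w) ∈ E ∧ (w, u) ∈ E) := by
  by_contra hcon
  simp only [not_or] at hcon
  obtain ⟨hc2, hc3⟩ := hcon
  have d2 : ∀ u v, (u, v) ∈ E → (v, u) ∉ E := by
    intro u v h1 h2
    have huv : u ≠ v := by rintro rfl; exact hloop _ h1
    exact hc2 ⟨u, v, huv, h1, h2⟩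
  have d3 : ∀ u v w, (u, v) ∈ E → (v, w) ∈ E → (w, u) ∉ E := by
    intro u v w h1 h2 h3
    have huv : u ≠ v := by rintro rfl; exact hloop _ h1
    have hvw : v ≠ w := by rintro rfl; exact hloop _ h2
    have huw : u ≠ w := by rintro rfl; exact hloop _ h3
    exact hc3 ⟨u, v, w, huv, hvw, huw, h1, h2, h3⟩
  obtain ⟨c, hc⟩ : ∃ c : V → V → ℕ, ∀ u v, c u v = if (u, v) ∈ E then 1 else if (v, u) ∈ E then 2 else 0 :=
    ⟨_, fun _ _ => rfl⟩
  have c1 : ∀ u v, c u v = 1 ↔ (u, v) ∈ E := by
    intro u v
    rw [hc]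
    by_cases h : (u, v) ∈ E
    · simp [h]
    · by_cases h' : (v, u) ∈ E <;> simp [h, h']
  have c2 : ∀ u v, c u v = 2 ↔ (v, u) ∈ E := by
    intro u v
    rw [hc]
    by_cases h : (u, v) ∈ E
    · simp [h, d2 u v h]
    · by_cases h' : (v, u) ∈ E <;> simp [h, h']
  have good : EulF.Good c := by
    refine ⟨fun u v => ?_, fun u v => ?_, fun u v w h => ?_⟩
    · rw [hc]
      split_ifs <;> norm_num
    · by_cases h : (u, v) ∈ E
      · rw [(c1 u v).2 h, (c2 v u).2 h]
        rfl
      · by_cases h' : (v, u) ∈ E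
        · rw [(c2 u v).2 h', (c1 v u).2 h']
          rfl
        · rw [hc u v, hc v u, if_neg h, if_neg h', if_neg h', if_neg h]
          rfl
    · rw [c1, c1, c1] at h
      exact d3 u v w h.1 h.2.1 h.2.2
  have count : ∀ u, ∑ y, EulF.sgn (c y u) = 0 := by
    intro u
    have h1 : ∀ y, EulF.sgn (c y u) = (if (y, u) ∈ E then (1 : ℤ) else 0) - (if (u, y) ∈ E then 1 else 0) := by
      intro y
      by_cases h : (y, u) ∈ E
      · rw [(c1 y u).2 h, if_pos h, if_neg (d2 y u h)]
        rfl
      · by_cases h' : (u, y) ∈ E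
        · rw [(c2 y u).2 h', if_neg h, if_pos h']
          rfl
        · rw [hc y u, if_neg h, if_neg h', if_neg h, if_neg h']
          rfl
    rw [Finset.sum_congr rfl fun y _ => h1 y, Finset.sum_sub_distrib, sub_eq_zero, Finset.sum_boole,
      Finset.sum_boole, Nat.cast_inj]
    have e1 : (Finset.univ.filter fun y => (y, u) ∈ E).card = (E.filter fun e => e.2 = u).card := by
      apply Finset.card_bij (fun y _ => (y, u))
      · intro y hy
        simpa using hy
      · intro a _ b _ hab
        exact congrArg Prod.fst hab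
      · rintro ⟨a, b⟩ hab
        simp only [Finset.mem_filter] at hab
        obtain ⟨hm, rfl⟩ := hab
        exact ⟨a, by simpa using hm, rfl⟩
    have e2 : (Finset.univ.filter fun y => (u, y) ∈ E).card = (E.filter fun e => e.1 = u).card := by
      apply Finset.card_bij (fun y _ => (u, y))
      · intro y hy
        simpa using hy
      · intro a _ b _ hab
        exact congrArg Prod.snd hab
      · rintro ⟨a, b⟩ hab
        simp only [Finset.mem_filter] at hab
        obtain ⟨hm, rfl⟩ := hab
        exact ⟨b, by simpa using hm, rfl⟩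
    rw [e1, e2, hbal u]
  have hb := EulF.bound good count
  have hcard : (∑ u, ∑ v, if c u v = 1 then (1 : ℤ) else 0) = E.card := by
    rw [← Finset.sum_product', Finset.univ_product_univ, Finset.sum_boole]
    congr 2
    ext ⟨u, v⟩
    simp [c1]
  rw [hcard] at hb
  have hE' : (3399 : ℤ) * (Fintype.card V) ^ 2 < 10000 * E.card := by exact_mod_cast hE
  linarith

end Pool.Agent.Results.MP_76b2fe_co.EulerianThreshold
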