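import Pool.Agent.Lib.P76b2.EqMain

set_option autoImplicit false

namespace Pool.Agent.Results.MP_76b2fe_co.ForbiddenOrgraphs

open Finset Pool.Agent.P76b2.Forb

/-- The digraph `E` has an induced subdigraph isomorphic to the digraph on `{0, 1, 2, 3}` with arc set `P`. -/
def Induced {V : Type*} (E : Finset (V × V)) (P : Finset (Fin 4 × Fin 4)) : Prop :=
  ∃ f : Fin 4 → V, Function.Injective f ∧ ∀ i j, (f i, f j) ∈ E ↔ (i, j) ∈ P

/-- `1 ← 0 → 2 → 3`. -/
def P1 : Finset (Fin 4 × Fin 4) := {(0, 1), (0, 2), (2, 3)}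

/-- `1 → 0 ← 2 ← 3`. -/
def P2 : Finset (Fin 4 × Fin 4) := {(1, 0), (2, 0), (3, 2)}

/-- `0 → 1` and `0 → 2 → 3 → 1`. -/
def P3 : Finset (Fin 4 × Fin 4) := {(0, 1), (0, 2), (2, 3), (3, 1)}

lemma induced_of {V : Type*} (E : Finset (V × V)) (P : Finset (Fin 4 × Fin 4)) (a b c d : V)
    (hab : a ≠ b) (hac : a ≠ c) (had : a ≠ d) (hbc : b ≠ c) (hbd : b ≠ d) (hcd : c ≠ d)
    (h : ∀ i j, ((![a, b, c, d] : Fin 4 → V) i, (![a, b, c, d] : Fin 4 → V) j) ∈ E ↔ (i, j) ∈ P) : Induced E P := by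
  refine ⟨![a, b, c, d], ?_, h⟩
  intro i j hij
  fin_cases i <;> fin_cases j <;> simp_all [eq_comm]

lemma cls {V : Type*} [DecidableEq V] (E : Finset (V × V)) (S : Finset V)
    (h2 : ∀ u v, (u, v) ∈ E → (v, u) ∉ E)
    (h3 : ∀ u v w, (u, v) ∈ E → (v, w) ∈ E → (w, u) ∉ E)
    (hP1 : ¬ Induced E P1) (hP2 : ¬ Induced E P2) (hP3 : ¬ Induced E P3) :
    Cls (fun a b => (a, b) ∈ E) S where
  hd := h2
  ht := h3
  ho := by
    intro u _ p _ q _ hn hup huq v _ hpv hqv
    by_contra huv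
    have hl : ∀ a, (a, a) ∉ E := fun a h => h2 a a h h
    have n1 : (v, u) ∉ E := h3 u p v hup hpv
    have d1 : u ≠ q := by rintro rfl; exact hl _ huq
    have d2 : u ≠ p := by rintro rfl; exact hl _ hup
    have d3 : u ≠ v := by rintro rfl; exact h2 _ _ hup hpv
    have d4 : q ≠ p := hn.1.symm
    have d5 : q ≠ v := by rintro rfl; exact hn.2.1 hpv
    have d6 : p ≠ v := by rintro rfl; exact hl _ hpv
    have n2 := hn.2.1
    have n3 := hn.2.2
    have n4 := h2 _ _ hup
    have n5 := h2 _ _ huq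
    have n6 := h2 _ _ hpv
    by_cases hvq : (v, q) ∈ E
    · apply hP3
      refine induced_of E P3 u q p v d1 d2 d3 d4 d5 d6 ?_
      intro i j
      fin_cases i <;> fin_cases j <;> simp_all [P3]
    · apply hP1
      refine induced_of E P1 u q p v d1 d2 d3 d4 d5 d6 ?_
      intro i j
      fin_cases i <;> fin_cases j <;> simp_all [P1]
  hi := by
    intro w _ p _ q _ hn hpw hqw v _ hvp hvq
    by_contra hvw
    have hl : ∀ a, (a, a) ∉ E := fun a h => h2 a a h h
    have n1 : (w, v) ∉ E := fun h => h3 v p w hvp hpw h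
    have d1 : w ≠ q := by rintro rfl; exact hl _ hqw
    have d2 : w ≠ p := by rintro rfl; exact hl _ hpw
    have d3 : w ≠ v := by rintro rfl; exact h2 _ _ hvp hpw
    have d4 : q ≠ p := hn.1.symm
    have d5 : q ≠ v := by rintro rfl; exact hn.2.2 hvp
    have d6 : p ≠ v := by rintro rfl; exact hl _ hvp
    have n2 := hn.2.1
    have n3 := hn.2.2
    have n4 := h2 _ _ hpw
    have n5 := h2 _ _ hqw
    have n6 := h2 _ _ hvp
    by_cases hqv : (q, v) ∈ E
    · apply hP3
      refine induced_of E P3 q w v p d1.symm d5 d4 d3 d2 d6.symm ?_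
      intro i j
      fin_cases i <;> fin_cases j <;> simp_all [P3]
    · apply hP2
      refine induced_of E P2 w q p v d1 d2 d3 d4 d5 d6 ?_
      intro i j
      fin_cases i <;> fin_cases j <;> simp_all [P2]

lemma sum_out {V : Type*} [Fintype V] [DecidableEq V] (E : Finset (V × V)) (x : V → ℝ) (v : V) :
    ∑ e ∈ E.filter (fun e => e.1 = v), x e.2 = ∑ w, x w * e (fun a b => (a, b) ∈ E) v w := by
  have h1 : ∑ w, x w * e (fun a b => (a, b) ∈ E) v w = ∑ w ∈ univ.filter (fun w => (v, w) ∈ E), x w := by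
    rw [Finset.sum_filter]
    refine Finset.sum_congr rfl fun w _ => ?_
    unfold e
    by_cases h : (v, w) ∈ E
    · simp [h]
    · simp [h]
  rw [h1]
  refine Finset.sum_nbij' (fun e => e.2) (fun w => (v, w)) ?_ ?_ ?_ ?_ ?_
  · rintro ⟨a, b⟩ h
    simp only [mem_filter, mem_univ, true_and] at h ⊢
    obtain ⟨h, rfl⟩ := h
    exact h
  · intro w h
    simp only [mem_filter, mem_univ, true_and, and_true] at h ⊢
    exact h
  · rintro ⟨a, b⟩ h
    simp only [mem_filter] at h
    obtain ⟨-, rfl⟩ := h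
    rfl
  · intro w _
    rfl
  · intro _ _
    rfl

lemma sum_in {V : Type*} [Fintype V] [DecidableEq V] (E : Finset (V × V)) (x : V → ℝ) (v : V) :
    ∑ e ∈ E.filter (fun e => e.2 = v), x e.1 = ∑ w, x w * e (fun a b => (a, b) ∈ E) w v := by
  have h1 : ∑ w, x w * e (fun a b => (a, b) ∈ E) w v = ∑ w ∈ univ.filter (fun w => (w, v) ∈ E), x w := by
    rw [Finset.sum_filter]
    refine Finset.sum_congr rfl fun w _ => ?_
    unfold e
    by_cases h : (w, v) ∈ E
    · simp [h]
    · simp [h]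
  rw [h1]
  refine Finset.sum_nbij' (fun e => e.1) (fun w => (w, v)) ?_ ?_ ?_ ?_ ?_
  · rintro ⟨a, b⟩ h
    simp only [mem_filter, mem_univ, true_and] at h ⊢
    obtain ⟨h, rfl⟩ := h
    exact h
  · intro w h
    simp only [mem_filter, mem_univ, true_and, and_true] at h ⊢
    exact h
  · rintro ⟨a, b⟩ h
    simp only [mem_filter] at h
    obtain ⟨-, rfl⟩ := h
    rfl
  · intro w _
    rfl
  · intro _ _
    rfl

lemma D_eq {V : Type*} [Fintype V] [DecidableEq V] (E : Finset (V × V)) (x : V → ℝ) :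
    D (fun a b => (a, b) ∈ E) univ x = ∑ e ∈ E, x e.1 * x e.2 := by
  unfold D
  rw [← Finset.sum_product', Finset.univ_product_univ]
  have : ∑ p : V × V, x p.1 * x p.2 * e (fun a b => (a, b) ∈ E) p.1 p.2 = ∑ p ∈ E, x p.1 * x p.2 := by
    rw [← Finset.sum_filter_add_sum_filter_not univ (fun p => p ∈ E)]
    have h2 : ∑ p ∈ univ.filter (fun p => ¬ p ∈ E), x p.1 * x p.2 * e (fun a b => (a, b) ∈ E) p.1 p.2 = 0 := by
      refine Finset.sum_eq_zero fun p hp => ?_
      have : ¬ (p.1, p.2) ∈ E := (Finset.mem_filter.mp hp).2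
      rw [e_zero this, mul_zero]
    rw [h2, add_zero]
    have h3 : univ.filter (fun p => p ∈ E) = E := by ext p; simp
    rw [h3]
    refine Finset.sum_congr rfl fun p hp => ?_
    rw [e_one (A := fun a b => (a, b) ∈ E) (u := p.1) (w := p.2) hp, mul_one]
  exact this

/-- **Theorem.** Let `E` be a loopless digraph on a finite nonempty vertex set `V` without directed cycles of
length at most `3` that has none of the three digraphs `1 ← 0 → 2 → 3`, `1 → 0 ← 2 ← 3` and `0 → 1, 0 → 2 → 3 → 1` as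
an induced subdigraph.

(a) If in-degree equals out-degree at every vertex, then `3 |E| ≤ n (n - 1)`, with equality if and only if `E` is an
iterated substitution of circulants with blocks of equal size (`Ext` with all weights `1`).

(b) If positive weights `x v` are given such that the out-neighbours and the in-neighbours of every vertex have the
same total weight, then `3 ∑_{(u, v) ∈ E} x u * x v + ∑_v (x v) ^ 2 ≤ (∑_v x v) ^ 2`, with equality if and only if `E` is
an iterated substitution of circulants with blocks of equal total weight (`Ext`). -/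
theorem result {V : Type*} [Fintype V] [DecidableEq V] [Nonempty V] (E : Finset (V × V))
    (h2 : ∀ u v, (u, v) ∈ E → (v, u) ∉ E)
    (h3 : ∀ u v w, (u, v) ∈ E → (v, w) ∈ E → (w, u) ∉ E)
    (hP1 : ¬ Induced E P1) (hP2 : ¬ Induced E P2) (hP3 : ¬ Induced E P3) :
    ((∀ v, (E.filter (fun e => e.1 = v)).card = (E.filter (fun e => e.2 = v)).card) →
      3 * E.card + Fintype.card V ≤ Fintype.card V ^ 2 ∧
      (3 * E.card + Fintype.card V = Fintype.card V ^ 2 ↔ Ext (fun a b => (a, b) ∈ E) (fun _ => 1) univ)) ∧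
    (∀ x : V → ℝ, (∀ v, 0 < x v) →
      (∀ v, ∑ e ∈ E.filter (fun e => e.1 = v), x e.2 = ∑ e ∈ E.filter (fun e => e.2 = v), x e.1) →
      3 * ∑ e ∈ E, x e.1 * x e.2 + ∑ v, x v ^ 2 ≤ (∑ v, x v) ^ 2 ∧
      (3 * ∑ e ∈ E, x e.1 * x e.2 + ∑ v, x v ^ 2 = (∑ v, x v) ^ 2 ↔
        Ext (fun a b => (a, b) ∈ E) x univ)) := by
  have key : ∀ x : V → ℝ, (∀ v, 0 < x v) →
      (∀ v, ∑ e ∈ E.filter (fun e => e.1 = v), x e.2 = ∑ e ∈ E.filter (fun e => e.2 = v), x e.1) →
      3 * ∑ e ∈ E, x e.1 * x e.2 + ∑ v, x v ^ 2 ≤ (∑ v, x v) ^ 2 ∧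
      (3 * ∑ e ∈ E, x e.1 * x e.2 + ∑ v, x v ^ 2 = (∑ v, x v) ^ 2 ↔
        Ext (fun a b => (a, b) ∈ E) x univ) := by
    intro x hx hb
    have hB : Bal (fun a b => (a, b) ∈ E) univ x := by
      intro v _
      have := hb v
      rw [sum_out, sum_in] at this
      simp only [mul_sub, Finset.sum_sub_distrib]
      linarith
    have hC := cls E univ h2 h3 hP1 hP2 hP3
    have h := weighted3 _ univ rfl hC x (fun v _ => hx v) hB
    have he := weighted3_eq _ univ rfl Finset.univ_nonempty hC x (fun v _ => hx v) hB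
    have he' := Ext.eq (A := fun a b => (a, b) ∈ E) (x := x) (S := univ) (fun v h1 => h2 v v h1 h1)
    rw [D_eq] at h he he'
    exact ⟨h, he, he'⟩
  refine ⟨?_, key⟩
  intro hb
  obtain ⟨h, he⟩ := key (fun _ => 1) (fun _ => one_pos) (fun v => by simp [hb v])
  simp only [mul_one, Finset.sum_const, nsmul_eq_mul, one_pow, Finset.card_univ] at h he
  refine ⟨by exact_mod_cast h, ?_⟩
  rw [← he]
  constructor
  · intro h1; exact_mod_cast h1
  · intro h1; exact_mod_cast h1

end Pool.Agent.Results.MP_76b2fe_co.ForbiddenOrgraphs
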