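import Pool.Agent.Lib.P76b2.Ident

set_option autoImplicit false

namespace Pool.Agent.Results.MP_76b2fe_co.IndependentTriples

open Finset Pool.Agent.P76b2

/-- **Theorem.** Let `E` be a loopless digraph on a finite vertex set `V` in which in-degree equals
out-degree at every vertex and which has no directed cycle of length at most `3`. Let `n` be the
number of vertices, `d v` the out-degree of `v`, `i` the number of independent triples and `c` the
number of cherries. -/
theorem result {V : Type*} [Fintype V] [DecidableEq V] (E : Finset (V × V))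
    (hloop : ∀ v, (v, v) ∉ E)
    (hbal : ∀ v, (E.filter (fun e => e.1 = v)).card = (E.filter (fun e => e.2 = v)).card)
    (h2 : ∀ u v, (u, v) ∈ E → (v, u) ∉ E)
    (h3 : ∀ u v w, (u, v) ∈ E → (v, w) ∈ E → (w, u) ∉ E) :
    let n : ℤ := Fintype.card V
    let d : V → ℤ := fun v => (E.filter (fun e => e.1 = v)).card
    let i : ℤ := (indep3 E).card
    let c : ℤ := (cherries E).card
    -- the identity
    (∑ v, (3 * d v - n + 1) * (3 * d v - n + 2) = 6 * i - 3 * c) ∧
    -- the resulting bound on the number of arcs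
    ((3 * (E.card : ℤ) - n * (n - 1)) * (3 * (E.card : ℤ) - n * (n - 2)) ≤ n * (6 * i - 3 * c)) ∧
    -- at least n²/3 arcs
    (n ^ 2 ≤ 3 * (E.card : ℤ) → 2 * n + 3 * c ≤ 6 * i) ∧
    -- more than n(n-1)/3 arcs
    (n * (n - 1) < 3 * (E.card : ℤ) → c < 2 * i) ∧
    -- always
    c ≤ 2 * i := by
  classical
  intro n d i c
  have hid : ∑ v, (3 * d v - n + 1) * (3 * d v - n + 2) = 6 * i - 3 * c :=
    identity E hloop hbal h2 h3
  have hn0 : 0 ≤ n := by simp only [n]; positivity
  have hE : (E.card : ℤ) = ∑ v, d v := by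
    rw [card_arcs]
    refine Finset.sum_congr rfl fun v _ => ?_
    rw [← outdeg_eq]
  have hcn : ∀ x : ℤ, ∑ _v : V, x = n * x := by
    intro x
    rw [Finset.sum_const, Finset.card_univ, nsmul_eq_mul]
  set y : V → ℤ := fun v => 3 * d v - n + 1 with hy
  have hY : ∑ v, y v = 3 * (E.card : ℤ) - n * (n - 1) := by
    simp only [hy]
    rw [Finset.sum_add_distrib, Finset.sum_sub_distrib, ← Finset.mul_sum, ← hE, hcn, hcn]
    ring
  have hid' : ∑ v, y v * (y v + 1) = 6 * i - 3 * c := by
    rw [← hid]
    refine Finset.sum_congr rfl fun v _ => ?_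
    simp only [hy]; ring
  have hpos : ∀ v, 0 ≤ y v * (y v + 1) := by
    intro v
    rcases le_or_gt 0 (y v) with h | h
    · exact mul_nonneg h (by linarith)
    · have : y v + 1 ≤ 0 := by omega
      nlinarith
  have hCS : (∑ v, y v) ^ 2 ≤ n * ∑ v, y v ^ 2 := by
    have := sq_sum_le_card_mul_sum_sq (s := (Finset.univ : Finset V)) (f := y)
    rw [Finset.card_univ] at this
    exact this
  have hsum2 : ∑ v, y v * (y v + 1) = ∑ v, y v ^ 2 + ∑ v, y v := by
    rw [← Finset.sum_add_distrib]
    refine Finset.sum_congr rfl fun v _ => by ring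
  have hb : (3 * (E.card : ℤ) - n * (n - 1)) * (3 * (E.card : ℤ) - n * (n - 2)) ≤
      n * (6 * i - 3 * c) := by
    rw [← hid', hsum2]
    have e : (3 * (E.card : ℤ) - n * (n - 1)) * (3 * (E.card : ℤ) - n * (n - 2)) =
        (∑ v, y v) ^ 2 + n * ∑ v, y v := by rw [hY]; ring
    rw [e]; nlinarith
  have hge : 0 ≤ 6 * i - 3 * c := by
    rw [← hid']; exact Finset.sum_nonneg fun v _ => hpos v
  refine ⟨hid, hb, ?_, ?_, by linarith⟩
  · intro h
    rcases hn0.eq_or_lt with hn | hn
    · rw [← hn]; linarith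
    have h5 : n ≤ 3 * (E.card : ℤ) - n * (n - 1) := by nlinarith
    have h6 : 2 * n ≤ 3 * (E.card : ℤ) - n * (n - 2) := by nlinarith
    have h7 : n * (2 * n) ≤ n * (6 * i - 3 * c) := by
      refine le_trans ?_ hb
      exact mul_le_mul h5 h6 (by positivity) (by linarith)
    have h8 : 2 * n ≤ 6 * i - 3 * c := le_of_mul_le_mul_left h7 hn
    linarith
  · intro h
    have h5 : 0 < (3 * (E.card : ℤ) - n * (n - 1)) * (3 * (E.card : ℤ) - n * (n - 2)) := by
      apply mul_pos
      · linarith
      · nlinarith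
    have h6 : 0 < n * (6 * i - 3 * c) := lt_of_lt_of_le h5 hb
    have h7 : 0 < 6 * i - 3 * c := by
      by_contra h8
      push Not at h8
      nlinarith
    linarith

end Pool.Agent.Results.MP_76b2fe_co.IndependentTriples
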