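import Mathlib

set_option autoImplicit false

namespace Pool.Agent.Results.MP_76b2fe_co.LengthFour

open Finset

section
variable {V : Type*} [DecidableEq V]

/-- integer indicator of an arc -/
private def ind (E : Finset (V × V)) (u v : V) : ℤ := if (u, v) ∈ E then 1 else 0

private lemma ind_nonneg (E : Finset (V × V)) (u v : V) : 0 ≤ ind E u v := by
  unfold ind; split_ifs <;> norm_num

private lemma ind_sq (E : Finset (V × V)) (u v : V) : ind E u v * ind E u v = ind E u v := by
  unfold ind; split_ifs <;> norm_num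

private lemma ind_le_one (E : Finset (V × V)) (u v : V) : ind E u v ≤ 1 := by
  unfold ind; split_ifs <;> norm_num

private lemma ind_ne_zero {E : Finset (V × V)} {u v : V} (h : ind E u v ≠ 0) : (u, v) ∈ E := by
  unfold ind at h; by_contra h'; simp [h'] at h

private lemma ind_pos {E : Finset (V × V)} {u v : V} (h : 0 < ind E u v) : (u, v) ∈ E :=
  ind_ne_zero (ne_of_gt h)

private lemma outdeg_eq [Fintype V] (E : Finset (V × V)) (v : V) :
    ((E.filter (fun e => e.1 = v)).card : ℤ) = ∑ u, ind E v u := by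
  unfold ind
  rw [Finset.sum_ite, Finset.sum_const_zero, add_zero, Finset.sum_const, nsmul_eq_mul, mul_one]
  norm_cast
  apply Finset.card_bij (fun e _ => e.2)
  · intro e he
    simp only [mem_filter] at he
    simp only [mem_filter, mem_univ, true_and]
    obtain ⟨h1, h2⟩ := he
    subst h2
    simpa using h1
  · intro e he f hf hef
    simp only [mem_filter] at he hf
    exact Prod.ext (he.2.trans hf.2.symm) hef
  · intro b hb
    simp only [mem_filter, mem_univ, true_and] at hb
    exact ⟨(v, b), by simp [hb], rfl⟩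

private lemma indeg_eq [Fintype V] (E : Finset (V × V)) (v : V) :
    ((E.filter (fun e => e.2 = v)).card : ℤ) = ∑ u, ind E u v := by
  unfold ind
  rw [Finset.sum_ite, Finset.sum_const_zero, add_zero, Finset.sum_const, nsmul_eq_mul, mul_one]
  norm_cast
  apply Finset.card_bij (fun e _ => e.1)
  · intro e he
    simp only [mem_filter] at he
    simp only [mem_filter, mem_univ, true_and]
    obtain ⟨h1, h2⟩ := he
    subst h2
    simpa using h1
  · intro e he f hf hef
    simp only [mem_filter] at he hf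
    exact Prod.ext hef (he.2.trans hf.2.symm)
  · intro b hb
    simp only [mem_filter, mem_univ, true_and] at hb
    exact ⟨(b, v), by simp [hb], rfl⟩

private lemma card_eq [Fintype V] (E : Finset (V × V)) : (E.card : ℤ) = ∑ u, ∑ v, ind E u v := by
  unfold ind
  rw [← Finset.sum_product']
  simp

end

/-- The counting core, for an abstract 0/1 matrix `a` with equal row and column sums. -/
private lemma core {V : Type*} [Fintype V] [DecidableEq V] (a : V → V → ℤ) (d : V → ℤ)
    (h0 : ∀ u v, 0 ≤ a u v) (h1 : ∀ u v, a u v ≤ 1)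
    (hsq : ∀ u v, a u v * a u v = a u v)
    (hout : ∀ v, ∑ u, a v u = d v) (hin : ∀ v, ∑ u, a u v = d v)
    (c1 : ∀ u, a u u = 0)
    (c2 : ∀ u v, a u v * a v u = 0)
    (c3 : ∀ u v w, a u v * a v w * a w u = 0)
    (c4 : ∀ u v w x, a u v * a v w * (a w x * a x u) = 0) :
    3 * ∑ v, d v * d v ≤ ((Fintype.card V : ℤ) - 2) * ∑ v, d v := by
  classical
  obtain ⟨c, hc⟩ : ∃ c : V → V → ℤ, ∀ u v, c u v = ∑ w, a u w * a w v := ⟨_, fun _ _ => rfl⟩
  have hc0 : ∀ u v, 0 ≤ c u v := by
    intro u v; rw [hc]; exact Finset.sum_nonneg (fun w _ => mul_nonneg (h0 _ _) (h0 _ _))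
  have hcd1 : ∀ u v, c u v ≤ d u := by
    intro u v; rw [hc, ← hout u]
    apply Finset.sum_le_sum
    intro w _
    have := h0 u w; have := h1 w v; nlinarith
  have hcd2 : ∀ u v, c u v ≤ d v := by
    intro u v; rw [hc, ← hin v]
    apply Finset.sum_le_sum
    intro w _
    have := h0 w v; have := h1 u w; nlinarith
  have hc4 : ∀ u v, c u v * c v u = 0 := by
    intro u v; rw [hc, hc, Finset.sum_mul_sum]
    apply Finset.sum_eq_zero; intro w _
    apply Finset.sum_eq_zero; intro x _
    exact c4 u w v x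
  have hmin : ∀ u v, 2 * (c u v + c v u) ≤ d u + d v := by
    intro u v
    rcases mul_eq_zero.mp (hc4 u v) with h | h
    · have := hcd1 v u; have := hcd2 v u; rw [h]; linarith
    · have := hcd1 u v; have := hcd2 u v; rw [h]; linarith
  have hdiag : ∀ u, c u u = 0 := by
    intro u; rw [hc]; exact Finset.sum_eq_zero (fun w _ => c2 u w)
  have htri : ∀ u v, c u v * a v u = 0 := by
    intro u v; rw [hc, Finset.sum_mul]; exact Finset.sum_eq_zero (fun w _ => c3 u w v)
  -- Q
  have hQ : ∑ u, ∑ v, c u v = ∑ v, d v * d v := by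
    calc ∑ u, ∑ v, c u v = ∑ u, ∑ v, ∑ w, a u w * a w v := by
          refine Finset.sum_congr rfl (fun u _ => Finset.sum_congr rfl (fun v _ => hc u v))
      _ = ∑ u, ∑ w, ∑ v, a u w * a w v := by
          refine Finset.sum_congr rfl (fun u _ => Finset.sum_comm)
      _ = ∑ w, ∑ u, ∑ v, a u w * a w v := Finset.sum_comm
      _ = ∑ v, d v * d v := by
          refine Finset.sum_congr rfl (fun w _ => ?_)
          rw [← Finset.sum_mul_sum, hin, hout]
  -- T
  obtain ⟨T, hT⟩ : ∃ T : ℤ, T = ∑ u, ∑ v, c u v * a u v := ⟨_, rfl⟩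
  have hTb : 2 * T ≤ ∑ v, d v * d v - ∑ v, d v := by
    have e1 : T = ∑ u, ∑ v, ∑ w, a u w * a u v * a w v := by
      rw [hT]
      refine Finset.sum_congr rfl (fun u _ => Finset.sum_congr rfl (fun v _ => ?_))
      rw [hc, Finset.sum_mul]
      refine Finset.sum_congr rfl (fun w _ => ?_)
      ring
    have e2 : T = ∑ u, ∑ v, ∑ w, a u w * a u v * a v w := by
      rw [e1]
      refine Finset.sum_congr rfl (fun u _ => ?_)
      rw [Finset.sum_comm]
      refine Finset.sum_congr rfl (fun v _ => Finset.sum_congr rfl (fun w _ => ?_))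
      ring
    have e3 : 2 * T = ∑ u, ∑ v, ∑ w, a u w * a u v * (a w v + a v w) := by
      have : 2 * T = T + T := by ring
      rw [this]
      nth_rewrite 1 [e1]
      rw [e2, ← Finset.sum_add_distrib]
      refine Finset.sum_congr rfl (fun u _ => ?_)
      rw [← Finset.sum_add_distrib]
      refine Finset.sum_congr rfl (fun v _ => ?_)
      rw [← Finset.sum_add_distrib]
      refine Finset.sum_congr rfl (fun w _ => ?_)
      ring
    rw [e3, ← Finset.sum_sub_distrib]
    refine Finset.sum_le_sum (fun u _ => ?_)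
    have e4 : d u * d u - d u = ∑ v, ∑ w, (a u w * a u v - if v = w then a u v else 0) := by
      have : ∑ v, ∑ w, (a u w * a u v - if v = w then a u v else 0)
          = ∑ v, ∑ w, a u w * a u v - ∑ v, ∑ w, (if v = w then a u v else 0) := by
        rw [← Finset.sum_sub_distrib]
        refine Finset.sum_congr rfl (fun v _ => ?_)
        rw [← Finset.sum_sub_distrib]
      rw [this]
      congr 1
      · rw [Finset.sum_comm, ← Finset.sum_mul_sum, hout]
      · simp [hout]
    rw [e4]
    refine Finset.sum_le_sum (fun v _ => Finset.sum_le_sum (fun w _ => ?_))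
    by_cases hvw : v = w
    · subst hvw
      simp [c1, hsq]
    · simp only [hvw, if_false, sub_zero]
      have hs : a w v + a v w ≤ 1 := by
        rcases mul_eq_zero.mp (c2 w v) with h | h
        · rw [h]; have := h1 v w; linarith
        · rw [h]; have := h1 w v; linarith
      have hp : 0 ≤ a u w * a u v := mul_nonneg (h0 _ _) (h0 _ _)
      nlinarith
  obtain ⟨nb, hnb⟩ : ∃ nb : V → V → ℤ, ∀ u v, nb u v = 1 - a u v - a v u - if u = v then 1 else 0 :=
    ⟨_, fun _ _ => rfl⟩
  have hnb0 : ∀ u v, 0 ≤ nb u v := by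
    intro u v
    rw [hnb]
    by_cases huv : u = v
    · subst huv; simp [c1]
    · simp only [huv, if_false, sub_zero]
      rcases mul_eq_zero.mp (c2 u v) with h | h
      · rw [h]; have := h1 v u; linarith
      · rw [h]; have := h1 u v; linarith
  have hnbs : ∀ u v, nb u v = nb v u := by
    intro u v; rw [hnb, hnb]
    have : (if u = v then (1:ℤ) else 0) = if v = u then 1 else 0 := by
      by_cases h : u = v
      · simp [h]
      · simp [h, Ne.symm h]
    rw [this]; ring
  have hP : ∑ u, ∑ v, nb u v * c u v = ∑ v, d v * d v - T := by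
    rw [← hQ, hT, ← Finset.sum_sub_distrib]
    refine Finset.sum_congr rfl (fun u _ => ?_)
    rw [← Finset.sum_sub_distrib]
    refine Finset.sum_congr rfl (fun v _ => ?_)
    rw [hnb]
    have h2 := htri u v
    by_cases huv : u = v
    · subst huv; simp [c1, hdiag]
    · simp only [huv, if_false, sub_zero]
      linear_combination (-1 : ℤ) * h2
  have hP' : ∑ u, ∑ v, nb u v * c v u = ∑ v, d v * d v - T := by
    rw [← hP, Finset.sum_comm]
    refine Finset.sum_congr rfl (fun u _ => Finset.sum_congr rfl (fun v _ => ?_))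
    rw [hnbs]
  have hz : ∀ u, ∑ v, nb u v = (Fintype.card V : ℤ) - 1 - 2 * d u := by
    intro u
    calc ∑ v, nb u v = ∑ v, (1 - a u v - a v u - if u = v then 1 else 0) :=
          Finset.sum_congr rfl (fun v _ => hnb u v)
      _ = (Fintype.card V : ℤ) - d u - d u - 1 := by
          rw [Finset.sum_sub_distrib, Finset.sum_sub_distrib, Finset.sum_sub_distrib, hout, hin]
          simp
      _ = _ := by ring
  have hmain : 2 * (2 * (∑ v, d v * d v - T)) ≤
      2 * (((Fintype.card V : ℤ) - 1) * ∑ v, d v - 2 * ∑ v, d v * d v) := by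
    calc 2 * (2 * (∑ v, d v * d v - T))
        = 2 * (∑ u, ∑ v, nb u v * c u v) + 2 * (∑ u, ∑ v, nb u v * c v u) := by
          rw [hP, hP']; ring
      _ = ∑ u, ∑ v, nb u v * (2 * (c u v + c v u)) := by
          rw [Finset.mul_sum, Finset.mul_sum, ← Finset.sum_add_distrib]
          refine Finset.sum_congr rfl (fun u _ => ?_)
          rw [Finset.mul_sum, Finset.mul_sum, ← Finset.sum_add_distrib]
          refine Finset.sum_congr rfl (fun v _ => ?_)
          ring
      _ ≤ ∑ u, ∑ v, nb u v * (d u + d v) := by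
          refine Finset.sum_le_sum (fun u _ => Finset.sum_le_sum (fun v _ => ?_))
          exact mul_le_mul_of_nonneg_left (hmin u v) (hnb0 u v)
      _ = ∑ u, ∑ v, nb u v * d u + ∑ u, ∑ v, nb u v * d v := by
          rw [← Finset.sum_add_distrib]
          refine Finset.sum_congr rfl (fun u _ => ?_)
          rw [← Finset.sum_add_distrib]
          refine Finset.sum_congr rfl (fun v _ => ?_)
          ring
      _ = ∑ u, ∑ v, nb u v * d u + ∑ u, ∑ v, nb u v * d u := by
          congr 1
          rw [Finset.sum_comm]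
          refine Finset.sum_congr rfl (fun u _ => Finset.sum_congr rfl (fun v _ => ?_))
          rw [hnbs]
      _ = 2 * ∑ u, ((Fintype.card V : ℤ) - 1 - 2 * d u) * d u := by
          rw [two_mul]
          have : ∀ u, ∑ v, nb u v * d u = ((Fintype.card V : ℤ) - 1 - 2 * d u) * d u := by
            intro u; rw [← Finset.sum_mul, hz]
          simp only [this]
      _ = 2 * (((Fintype.card V : ℤ) - 1) * ∑ v, d v - 2 * ∑ v, d v * d v) := by
          rw [Finset.mul_sum (s := univ) (f := d), Finset.mul_sum (a := (2:ℤ)) (f := fun v => d v * d v),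
            ← Finset.sum_sub_distrib]
          congr 1
          refine Finset.sum_congr rfl (fun u _ => ?_)
          ring
  linarith

theorem result {V : Type*} [Fintype V] [DecidableEq V] (E : Finset (V × V))
    (hloop : ∀ v : V, (v, v) ∉ E)
    (hbal : ∀ v : V, (E.filter (fun e => e.1 = v)).card = (E.filter (fun e => e.2 = v)).card)
    (hne : E.Nonempty)
    (hE : (Fintype.card V) ^ 2 < 3 * E.card + 2 * Fintype.card V) :
    (∃ u v : V, u ≠ v ∧ (u, v) ∈ E ∧ (v, u) ∈ E) ∨
    (∃ u v w : V, u ≠ v ∧ v ≠ w ∧ u ≠ w ∧ (u, v) ∈ E ∧ (v, w) ∈ E ∧ (w, u) ∈ E) ∨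
    (∃ u v w x : V, u ≠ v ∧ u ≠ w ∧ u ≠ x ∧ v ≠ w ∧ v ≠ x ∧ w ≠ x ∧
      (u, v) ∈ E ∧ (v, w) ∈ E ∧ (w, x) ∈ E ∧ (x, u) ∈ E) := by
  classical
  by_contra hcon
  simp only [not_or] at hcon
  obtain ⟨hc2, hc3, hc4⟩ := hcon
  have c1 : ∀ u, ind E u u = 0 := by
    intro u; unfold ind; simp [hloop u]
  have c2 : ∀ u v, ind E u v * ind E v u = 0 := by
    intro u v
    by_contra h
    have h1 := ind_ne_zero (left_ne_zero_of_mul h)
    have h2 := ind_ne_zero (right_ne_zero_of_mul h)
    have huv : u ≠ v := by rintro rfl; exact hloop _ h1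
    exact hc2 ⟨u, v, huv, h1, h2⟩
  have c3 : ∀ u v w, ind E u v * ind E v w * ind E w u = 0 := by
    intro u v w
    by_contra h
    have h12 := left_ne_zero_of_mul h
    have h1 := ind_ne_zero (left_ne_zero_of_mul h12)
    have h2 := ind_ne_zero (right_ne_zero_of_mul h12)
    have h3 := ind_ne_zero (right_ne_zero_of_mul h)
    have huv : u ≠ v := by rintro rfl; exact hloop _ h1
    have hvw : v ≠ w := by rintro rfl; exact hloop _ h2
    have huw : u ≠ w := by rintro rfl; exact hloop _ h3
    exact hc3 ⟨u, v, w, huv, hvw, huw, h1, h2, h3⟩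
  have c4 : ∀ u v w x, ind E u v * ind E v w * (ind E w x * ind E x u) = 0 := by
    intro u v w x
    by_contra h
    have h12 := left_ne_zero_of_mul h
    have h34 := right_ne_zero_of_mul h
    have n1 := left_ne_zero_of_mul h12
    have n2 := right_ne_zero_of_mul h12
    have n3 := left_ne_zero_of_mul h34
    have n4 := right_ne_zero_of_mul h34
    have h1 := ind_ne_zero n1
    have h2 := ind_ne_zero n2
    have h3 := ind_ne_zero n3
    have h4 := ind_ne_zero n4
    have huv : u ≠ v := by rintro rfl; exact hloop _ h1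
    have hvw : v ≠ w := by rintro rfl; exact hloop _ h2
    have hwx : w ≠ x := by rintro rfl; exact hloop _ h3
    have hux : u ≠ x := by rintro rfl; exact hloop _ h4
    have huw : u ≠ w := by
      rintro rfl
      exact mul_ne_zero n1 n2 (c2 u v)
    have hvx : v ≠ x := by
      rintro rfl
      exact mul_ne_zero n1 n4 (c2 u v)
    exact hc4 ⟨u, v, w, x, huv, huw, hux, hvw, hvx, hwx, h1, h2, h3, h4⟩
  obtain ⟨d, hd⟩ : ∃ d : V → ℤ, ∀ v, d v = ∑ u, ind E v u := ⟨_, fun _ => rfl⟩
  have hin : ∀ v, ∑ u, ind E u v = d v := by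
    intro v
    rw [hd, ← indeg_eq, ← outdeg_eq, hbal]
  have hcore := core (ind E) d (ind_nonneg E) (ind_le_one E) (ind_sq E) (fun v => (hd v).symm) hin
    c1 c2 c3 c4
  have hm : ∑ v, d v = (E.card : ℤ) := by
    rw [card_eq]; exact Finset.sum_congr rfl (fun v _ => hd v)
  have hcs : (∑ v, d v) ^ 2 ≤ (Fintype.card V : ℤ) * ∑ v, d v * d v := by
    have := Finset.sum_mul_sq_le_sq_mul_sq (Finset.univ : Finset V) (fun _ => (1:ℤ)) d
    simp only [one_mul, one_pow, Finset.sum_const, Finset.card_univ, nsmul_eq_mul, mul_one] at this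
    calc (∑ v, d v) ^ 2 ≤ (Fintype.card V : ℤ) * ∑ v, d v ^ 2 := this
      _ = _ := by simp only [sq]
  rw [hm] at hcore hcs
  have hmpos : 0 < (E.card : ℤ) := by exact_mod_cast hne.card_pos
  have hE' : (Fintype.card V : ℤ) ^ 2 < 3 * E.card + 2 * Fintype.card V := by exact_mod_cast hE
  have hn0 : 0 ≤ (Fintype.card V : ℤ) := by positivity
  have h3 : 3 * (E.card : ℤ) ^ 2 ≤ (Fintype.card V : ℤ) * (((Fintype.card V : ℤ) - 2) * E.card) := by
    calc 3 * (E.card : ℤ) ^ 2 ≤ 3 * ((Fintype.card V : ℤ) * ∑ v, d v * d v) := by linarith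
      _ = (Fintype.card V : ℤ) * (3 * ∑ v, d v * d v) := by ring
      _ ≤ _ := mul_le_mul_of_nonneg_left hcore hn0
  nlinarith [h3, hE', hmpos]

end Pool.Agent.Results.MP_76b2fe_co.LengthFour
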